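import Pool.Agent.Run7.h794.WN.One
import Pool.Agent.TH646.TT.Grid

set_option autoImplicit false

/-! All lengths, several sets, all the neighbours of a random integer. -/

namespace Pool.Agent.Run7.h794.WN

open Finset Filter
open Pool.Agent.W301.SS (om cs pn GG ev_L ev_log gr gr_mem cs_mono)
open Pool.Agent.TH646.TT (interp good_many)
open Pool.Agent.N469.PT (OneLaw)

/-- all lengths, for the translate of `A` by `b` -/
def Good (ε : ℝ) (K N : ℕ) (A : Finset ℕ) (b : ℕ) : Prop :=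
  ∀ y : ℕ, Real.log N ^ K ≤ y → y ≤ N → |cs A b y * Real.log N - A.card * y| ≤ ε * (A.card * y) ∧
    (1 / 4 - ε) * A.card ≤ (GG A N b y ε).card

open Classical in
theorem all_scales {L : ℕ → Finset ℕ → (ℕ → ℝ) → Prop} (κ Bc C T W U : ℕ) (ε : ℝ) (hε : 0 < ε) (hε1 : ε ≤ 1 / 4)
    (hL : ∀ V, OneLaw L κ (Bc + 1) V) :
    ∃ K : ℕ, ∀ᶠ N : ℕ in atTop, ∀ (Ω : Finset ℕ) (p : ℕ → ℝ), L (4 * N) Ω p → (∀ v ∈ Ω, 0 ≤ p v) →
      ∀ c : ℕ, c ≤ Bc * N → ∀ (J : ℕ) (A : Fin J → Finset ℕ), (J : ℝ) ≤ Real.log N ^ T → (∀ l, A l ⊆ Icc 1 N) →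
      (∀ l, (N : ℝ) ≤ (A l).card * Real.log N ^ C) →
      ∑ v ∈ Ω, (if ¬ ∀ t : ℕ, (t : ℝ) ≤ Real.log N ^ W → 1 ≤ c + κ * v + t → c + κ * v + t ≤ N →
        ∀ l, Good ε K N (A l) (c + κ * v + t) then p v else 0) ≤ 1 / Real.log N ^ U := by
  obtain ⟨η, hη⟩ : ∃ η, η = ε / 32 := ⟨_, rfl⟩
  have hη0 : 0 < η := by rw [hη]; positivity
  have hη1 : η ≤ 1 / 8 := by rw [hη]; linarith
  obtain ⟨V, hV⟩ : ∃ V, V = U + W + T + 3 := ⟨_, rfl⟩
  obtain ⟨K, hK⟩ := one_scale κ (Bc + 1) C V η hη0 (by linarith) (hL _)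
  have hlr : 0 < Real.log (1 + η) := Real.log_pos (by linarith)
  refine ⟨max (K + 1) (C + 20), ?_⟩
  filter_upwards [hK, good_many C ε hε hε1, ev_L (1 / η + 2 / Real.log (1 + η) + 8), ev_log W 1 1 (by norm_num),
    eventually_ge_atTop 16] with N hone hgm hL hpow hN16 Ω p hLp hp c hc J A hJ hA hAN
  have hNr : (16 : ℝ) ≤ N := by exact_mod_cast hN16
  have hN0 : (0 : ℝ) < N := by linarith
  rw [one_mul, Real.rpow_one] at hpow
  have hone' := hone Ω p hLp
  obtain ⟨ℓ, hℓ⟩ : ∃ ℓ, ℓ = Real.log (N : ℝ) := ⟨_, rfl⟩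
  have hd1 : 0 < 1 / η := by positivity
  have hd2 : 0 < 2 / Real.log (1 + η) := by positivity
  have hℓ8 : 8 ≤ ℓ := by rw [hℓ]; linarith
  have hℓ0 : 0 < ℓ := by linarith
  obtain ⟨R, hR⟩ : ∃ R : ℕ, R = ⌊ℓ ^ W⌋₊ := ⟨_, rfl⟩
  obtain ⟨G, hG⟩ : ∃ G : ℕ, G = ⌊ℓ / Real.log (1 + η)⌋₊ + 2 := ⟨_, rfl⟩
  -- the events
  obtain ⟨F, hF⟩ : ∃ F : ℕ → Fin J → ℕ → ℕ → ℝ, F = fun t l j v =>
    if (Real.log N ^ K ≤ (gr η j : ℝ) ∧ gr η j ≤ 2 * N) then (if 1 ≤ (c + t) + κ * v ∧ (c + t) + κ * v ≤ N ∧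
        ¬ |cs (A l) ((c + t) + κ * v) (gr η j) * Real.log N - (A l).card * (gr η j : ℕ)| ≤ η * ((A l).card * (gr η j : ℕ))
        then p v else 0) else 0 := ⟨_, rfl⟩
  have hF0 : ∀ t l j, ∀ v ∈ Ω, 0 ≤ F t l j v := by
    intro t l j v hv
    have := hp v hv
    rw [hF]
    simp only
    split_ifs <;> first | exact this | exact le_rfl
  have hFs : ∀ t ∈ range (R + 1), ∀ l, ∀ j, ∑ v ∈ Ω, F t l j v ≤ 1 / ℓ ^ V := by
    intro t ht l j
    rw [hF]
    simp only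
    by_cases h : Real.log N ^ K ≤ (gr η j : ℝ) ∧ gr η j ≤ 2 * N
    · rw [hℓ]
      simp only [if_pos h]
      refine hone' (c + t) ?_ (A l) (hA l) (hAN l) (gr η j) h.1 h.2
      have h1 : (t : ℝ) ≤ N := by
        have h2 : (t : ℝ) ≤ R := by exact_mod_cast (by have := mem_range.1 ht; omega : t ≤ R)
        refine h2.trans ?_
        rw [hR]
        refine (Nat.floor_le (by positivity)).trans ?_
        rw [hℓ]
        exact hpow
      have h2 : t ≤ N := by exact_mod_cast h1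
      calc c + t ≤ Bc * N + N := by omega
        _ ≤ (Bc + 1) * (4 * N) := by nlinarith
    · simp only [if_neg h, sum_const_zero]
      positivity
  -- the union
  have hU : ∀ v ∈ Ω, (if ¬ ∀ t : ℕ, (t : ℝ) ≤ Real.log N ^ W → 1 ≤ c + κ * v + t → c + κ * v + t ≤ N →
        ∀ l, Good ε (max (K + 1) (C + 20)) N (A l) (c + κ * v + t) then p v else 0) ≤
      ∑ t ∈ range (R + 1), ∑ l, ∑ j ∈ range G, F t l j v := by
    intro v hv
    have hnn : 0 ≤ ∑ t ∈ range (R + 1), ∑ l, ∑ j ∈ range G, F t l j v :=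
      sum_nonneg fun t _ => sum_nonneg fun l _ => sum_nonneg fun j _ => hF0 t l j v hv
    split_ifs with hcon
    · exact hnn
    push Not at hcon
    obtain ⟨t, ht, h1, h2, l, hbad⟩ := hcon
    unfold Good at hbad
    push Not at hbad
    obtain ⟨y, hy1, hy2, hy3⟩ := hbad
    have htR : t ∈ range (R + 1) := by
      rw [mem_range, hR, hℓ]
      have := Nat.le_floor ht
      omega
    rw [← hℓ] at hy1
    have hyK : ℓ ^ (K + 1) ≤ y := (pow_le_pow_right₀ (by linarith) (le_max_left _ _)).trans hy1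
    have hyC : ℓ ^ (C + 20) ≤ y := (pow_le_pow_right₀ (by linarith) (le_max_right _ _)).trans hy1
    have hyℓ : ℓ ≤ y := by
      refine le_trans ?_ hyK
      calc ℓ = ℓ ^ 1 := (pow_one _).symm
        _ ≤ ℓ ^ (K + 1) := pow_le_pow_right₀ (by linarith) (by omega)
    have hy0 : (1 : ℝ) ≤ y := by linarith
    obtain ⟨j, g1, g2, g3, g4, g5⟩ := gr_mem hη0 (by linarith) y (by exact_mod_cast hy0)
      (by rw [← hℓ] at hL; linarith)
    have hyK' : ℓ ^ K ≤ (gr η j : ℝ) := by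
      refine le_trans ?_ g5
      have h1 : ℓ ^ K * ℓ ≤ y := by rw [← pow_succ]; exact hyK
      have h2 : 0 ≤ ℓ ^ K := by positivity
      have h3 : ℓ ^ K * 2 ≤ y := by nlinarith
      have h4 : (1 / 2) * (y : ℝ) ≤ (1 - 2 * η) * y := by nlinarith
      linarith
    have hjG : j + 1 < G := by
      have h1 : (j : ℝ) ≤ ℓ / Real.log (1 + η) := by
        rw [le_div_iff₀ hlr, ← Real.log_pow, hℓ]
        apply Real.log_le_log (by positivity)
        refine g1.trans ?_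
        exact_mod_cast hy2
      have h2 : j ≤ ⌊ℓ / Real.log (1 + η)⌋₊ := Nat.le_floor h1
      omega
    have hg2N : gr η (j + 1) ≤ 2 * N := by
      have h1 : (gr η (j + 1) : ℝ) ≤ 2 * N := by
        refine g4.trans ?_
        have : (y : ℝ) ≤ N := by exact_mod_cast hy2
        nlinarith
      exact_mod_cast h1
    have hgg : (gr η j : ℝ) ≤ gr η (j + 1) := by exact_mod_cast g2.trans g3
    -- one of the two points of the grid is bad
    have hbb : ∃ j' ∈ range G, F t l j' v = p v := by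
      by_contra hcon
      push Not at hcon
      have e : ∀ j', ℓ ^ K ≤ (gr η j' : ℝ) → gr η j' ≤ 2 * N → j' ∈ range G →
          |cs (A l) (c + κ * v + t) (gr η j') * ℓ - (A l).card * (gr η j' : ℕ)| ≤ η * ((A l).card * (gr η j' : ℕ)) := by
        intro j' k1 k2 k3
        by_contra hcon2
        apply hcon j' k3
        rw [hF]
        simp only
        have e1 : c + t + κ * v = c + κ * v + t := by ring
        rw [if_pos ⟨by rw [← hℓ]; exact k1, k2⟩, if_pos]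
        rw [e1]
        exact ⟨h1, h2, by rw [← hℓ]; exact hcon2⟩
      have m1 := e j hyK' (by omega) (mem_range.2 (by omega))
      have m2 := e (j + 1) (hyK'.trans hgg) hg2N (mem_range.2 hjG)
      have m3 := interp (A l) (c + κ * v + t) y (gr η j) (gr η (j + 1)) ℓ η hℓ0 hη0 hη1 g2 g3 g4 g5 m1 m2
      rw [show 8 * η = ε / 4 by rw [hη]; ring] at m3
      rw [hℓ] at m3
      have hcy : 0 ≤ ((A l).card : ℝ) * y := by positivity
      have m4 := hgm (A l) (hA l) (hAN l) (c + κ * v + t) (mem_Icc.2 ⟨h1, h2⟩) y (by rw [← hℓ]; exact hyC) m3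
      have m5 := hy3 (m3.trans (mul_le_mul_of_nonneg_right (by linarith) hcy))
      linarith
    obtain ⟨j', hj', he⟩ := hbb
    calc p v = F t l j' v := he.symm
      _ ≤ ∑ j ∈ range G, F t l j v := single_le_sum (f := fun j => F t l j v) (fun j _ => hF0 t l j v hv) hj'
      _ ≤ ∑ l, ∑ j ∈ range G, F t l j v := single_le_sum (f := fun l => ∑ j ∈ range G, F t l j v)
          (fun l _ => sum_nonneg fun j _ => hF0 t l j v hv) (mem_univ l)
      _ ≤ _ := single_le_sum (f := fun t => ∑ l, ∑ j ∈ range G, F t l j v)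
          (fun t _ => sum_nonneg fun l _ => sum_nonneg fun j _ => hF0 t l j v hv) htR
  refine (sum_le_sum hU).trans ?_
  rw [sum_comm]
  have h1 : ∀ t ∈ range (R + 1), ∑ v ∈ Ω, ∑ l, ∑ j ∈ range G, F t l j v ≤ J * (G * (1 / ℓ ^ V)) := by
    intro t ht
    rw [sum_comm]
    calc ∑ l, ∑ v ∈ Ω, ∑ j ∈ range G, F t l j v ≤ ∑ _l : Fin J, (G : ℝ) * (1 / ℓ ^ V) := by
          apply sum_le_sum
          intro l _
          rw [sum_comm]
          calc ∑ j ∈ range G, ∑ v ∈ Ω, F t l j v ≤ ∑ _j ∈ range G, 1 / ℓ ^ V := sum_le_sum fun j _ => hFs t ht l j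
            _ = _ := by rw [sum_const, card_range, nsmul_eq_mul]
      _ = _ := by rw [sum_const, card_univ, Fintype.card_fin, nsmul_eq_mul]
  have hG2 : (G : ℝ) * 2 ≤ ℓ ^ 2 := by
    have h4 : (G : ℝ) ≤ ℓ / Real.log (1 + η) + 2 := by
      rw [hG]; push_cast
      have := Nat.floor_le (show 0 ≤ ℓ / Real.log (1 + η) by positivity)
      linarith
    have h5 : 2 / Real.log (1 + η) ≤ ℓ - 8 := by rw [hℓ]; linarith
    have h6 : ℓ / Real.log (1 + η) * 2 ≤ ℓ * (ℓ - 8) := by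
      calc ℓ / Real.log (1 + η) * 2 = ℓ * (2 / Real.log (1 + η)) := by ring
        _ ≤ _ := mul_le_mul_of_nonneg_left h5 hℓ0.le
    nlinarith
  have hR2 : ((R + 1 : ℕ) : ℝ) ≤ ℓ ^ (W + 1) := by
    have h3 : (R : ℝ) ≤ ℓ ^ W := by
      rw [hR]
      exact Nat.floor_le (by positivity)
    have h4 : 1 ≤ ℓ ^ W := one_le_pow₀ (by linarith)
    push_cast
    rw [pow_succ]
    nlinarith
  have hJ' : (J : ℝ) ≤ ℓ ^ T := by rw [hℓ]; exact hJ
  calc ∑ t ∈ range (R + 1), ∑ v ∈ Ω, ∑ l, ∑ j ∈ range G, F t l j v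
      ≤ ∑ _t ∈ range (R + 1), (J : ℝ) * (G * (1 / ℓ ^ V)) := sum_le_sum h1
    _ = ((R + 1 : ℕ) : ℝ) * (J * (G * (1 / ℓ ^ V))) := by rw [sum_const, card_range, nsmul_eq_mul]
    _ ≤ ℓ ^ (W + 1) * (ℓ ^ T * (ℓ ^ 2 * (1 / ℓ ^ V))) := by
        have hG0 : (0 : ℝ) ≤ G := Nat.cast_nonneg _
        gcongr
        linarith
    _ = 1 / ℓ ^ U := by
        rw [hV]
        field_simp
        rw [← pow_add, ← pow_add, ← pow_add]
        congr 1
        ring
    _ = 1 / Real.log N ^ U := by rw [hℓ]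

end Pool.Agent.Run7.h794.WN
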