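import Pool.Agent.Run7.h794.WN.All
import Pool.Agent.N384.MQ.Tup

set_option autoImplicit false

/-! Windows of all lengths at the translates of arbitrary sets by the members of families of residues with small Fourier
coefficients. -/

namespace Pool.Agent.Run7.h794.WN

open Finset Filter
open Pool.Agent.N625.DY (Cls ClsV Kc cls_one)
open Pool.Agent.N193.PS (dg lt_dg dg_le log_le_dg dg_le_log dg_large log_pos4 log_pow_ev)
open Pool.Agent.N384.MQ

/-- from classes to a fixed exponent, with a parameter chosen after the class -/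
theorem fin_formK (a : ℕ) (Bad : ℕ → ℕ → (ℕ → ℝ) → Prop) (hmono : ∀ K K' k p, K ≤ K' → Bad K' k p → Bad K k p)
    (h : ∀ C : ℕ → (ℕ → ℝ) → Prop, (∀ κ : ℤ, κ ≠ 0 → ClsV 2 κ C) →
      ∃ K k₀ : ℕ, ∀ k : ℕ, k₀ ≤ k → ∀ p, C k p → ¬ Bad K k p) :
    ∃ V K k₀ : ℕ, ∀ k : ℕ, k₀ ≤ k → ∀ p, MC a V k p → ¬ Bad K k p := by
  by_contra hcon
  push Not at hcon
  choose kk hk pp hp hbad using fun V => hcon V V (V + 1)
  obtain ⟨K, k₀, h1⟩ := h (fun k p => ∃ V, k = kk V ∧ p = pp V) (fun κ hκ => clsV_of a κ hκ _ (fun k p => by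
      rintro ⟨V, rfl, rfl⟩
      exact MC_mono (Nat.zero_le _) (by have := hk V; omega) (hp V)) (fun V => by
      refine ⟨∑ i ∈ range V, kk i + 1, fun k hkk p => ?_⟩
      rintro ⟨V', rfl, rfl⟩
      have hV : V ≤ V' := by
        by_contra hlt
        push Not at hlt
        have := single_le_sum (f := kk) (fun _ _ => Nat.zero_le _) (mem_range.2 hlt)
        omega
      exact MC_mono hV (by have := hk V'; omega) (hp V')))
  have h2 := hk (K + k₀)
  exact h1 (kk (K + k₀)) (by omega) (pp (K + k₀)) ⟨K + k₀, rfl, rfl⟩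
    (hmono K (K + k₀) _ _ (by omega) (hbad (K + k₀)))

lemma Good_mono {ε : ℝ} {K K' N : ℕ} (hN : 4 ≤ N) (hK : K ≤ K') {A : Finset ℕ} {b : ℕ} (h : Good ε K N A b) :
    Good ε K' N A b := by
  have hlog := log_pos4 N hN
  intro y hy1 hy2
  exact h y ((pow_le_pow_right₀ (by linarith) hK).trans hy1) hy2

open Classical in
/-- windows at the translates by the members of a family -/
theorem mq_windows (κ : ℕ) (hκ : 1 ≤ κ) (B C T W U a : ℕ) (ε : ℝ) (hε : 0 < ε) (hε1 : ε ≤ 1 / 4) :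
    ∃ V K N₀ : ℕ, ∀ N : ℕ, N₀ ≤ N → ∀ q : ℕ, ∀ [NeZero q], q ≤ N → (N : ℝ) ≤ q * Real.log N ^ a →
      ∀ (ι : Type) (S : Finset ι) (y : ι → ZMod q), Flat q (1 / Real.log q ^ V) S y → ∀ c : ℕ, c ≤ B * N →
      ∀ (J : ℕ) (A : Fin J → Finset ℕ), (J : ℝ) ≤ Real.log N ^ T → (∀ l, A l ⊆ Icc 1 N) →
      (∀ l, (N : ℝ) ≤ (A l).card * Real.log N ^ C) →
      ((S.filter fun i => ¬ ∀ t : ℕ, (t : ℝ) ≤ Real.log N ^ W → 1 ≤ c + κ * (y i).val + t → c + κ * (y i).val + t ≤ N →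
        ∀ l, Good ε K N (A l) (c + κ * (y i).val + t)).card : ℝ) ≤ S.card / Real.log N ^ U := by
  obtain ⟨V, K, k₀, h0⟩ := fin_formK (a + 1) (fun K k p => (∀ v, 0 ≤ p v) ∧
      ∃ N : ℕ, 4 ≤ N ∧ dg N = k ∧ ∃ c : ℕ, c ≤ B * N ∧ ∃ (J : ℕ) (A : Fin J → Finset ℕ), (J : ℝ) ≤ Real.log N ^ T ∧
      (∀ l, A l ⊆ Icc 1 N) ∧ (∀ l, (N : ℝ) ≤ (A l).card * Real.log N ^ C) ∧
      1 / Real.log N ^ U < ∑ v ∈ range (2 ^ k), (if ¬ ∀ t : ℕ, (t : ℝ) ≤ Real.log N ^ W → 1 ≤ c + κ * v + t →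
        c + κ * v + t ≤ N → ∀ l, Good ε K N (A l) (c + κ * v + t) then p v else 0)) (fun K K' k p hK => by
      rintro ⟨hp, N, hN4, hNk, c, hc, J, A, hJ, hA1, hA2, hlt⟩
      refine ⟨hp, N, hN4, hNk, c, hc, J, A, hJ, hA1, hA2, lt_of_lt_of_le hlt (sum_le_sum fun v _ => ?_)⟩
      by_cases h1 : ∀ t : ℕ, (t : ℝ) ≤ Real.log N ^ W → 1 ≤ c + κ * v + t →
        c + κ * v + t ≤ N → ∀ l, Good ε K N (A l) (c + κ * v + t)
      · have h2 : ∀ t : ℕ, (t : ℝ) ≤ Real.log N ^ W → 1 ≤ c + κ * v + t →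
          c + κ * v + t ≤ N → ∀ l, Good ε K' N (A l) (c + κ * v + t) :=
          fun t k1 k2 k3 l => Good_mono hN4 hK (h1 t k1 k2 k3 l)
        rw [if_neg (not_not.2 h1), if_neg (not_not.2 h2)]
      · rw [if_pos h1]
        split_ifs
        · exact hp v
        · exact le_rfl) (fun D hD => by
      obtain ⟨K, hK⟩ := all_scales (L := Kc 2 4 D) κ B C T W U ε hε hε1
        (fun V => cls_one κ (hD (κ : ℤ) (by exact_mod_cast (by omega : κ ≠ 0))).toCls 4 (B + 1) V)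
      obtain ⟨N₁, h1⟩ := eventually_atTop.1 hK
      refine ⟨K, N₁ + 3, fun k hk p hp => ?_⟩
      rintro ⟨hp0, N, hN4, hNk, c, hc, J, A, hJ, hA1, hA2, hlt⟩
      have hN1 : 1 ≤ N := by omega
      have hNN : N₁ ≤ N := by
        have h2 := dg_le N hN1
        rw [hNk] at h2
        have h3 : k < 2 ^ k := Nat.lt_two_pow_self
        have h4 : 2 ^ k = 2 * 2 ^ (k - 1) := by
          rw [← pow_succ']
          congr 1
          omega
        have h5 : k - 1 < 2 ^ (k - 1) := Nat.lt_two_pow_self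
        omega
      have h2 := h1 N hNN (range (2 ^ k)) p ⟨k, by
        have := dg_le N hN1
        rw [hNk] at this
        omega, by
        have := lt_dg N
        rw [hNk] at this
        omega, hp, rfl⟩ (fun v _ => hp0 v) c hc J A hJ hA1 hA2
      exact absurd h2 (not_le.2 hlt))
  obtain ⟨N₁, h1⟩ := scaleN a V k₀
  refine ⟨V + 1, K, N₁ + 4, fun N hN q _ hq1 hq2 ι S y hf c hc J A hJ hA1 hA2 => ?_⟩
  have hN4 : 4 ≤ N := by omega
  by_cases hS : S.Nonempty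
  swap
  · rw [not_nonempty_iff_eq_empty] at hS
    rw [hS]
    simp
  obtain ⟨-, hk, hq3, hq4, hq5⟩ := h1 N q (by omega) hq1 hq2
  have hMC : MC (a + 1) V (dg N) (dis S y) := dis_MC (a + 1) V (dg N) q S hS y hq3 hq4 (hf.mono hq5)
  have h3 := h0 (dg N) hk (dis S y) hMC
  have h4 : ∑ v ∈ range (2 ^ dg N), (if ¬ ∀ t : ℕ, (t : ℝ) ≤ Real.log N ^ W → 1 ≤ c + κ * v + t →
        c + κ * v + t ≤ N → ∀ l, Good ε K N (A l) (c + κ * v + t) then dis S y v else 0) ≤ 1 / Real.log N ^ U := by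
    by_contra hcon
    exact h3 ⟨fun v => by unfold dis; positivity, N, hN4, rfl, c, hc, J, A, hJ, hA1, hA2, not_le.1 hcon⟩
  have h5 := count_dis S hS y (dg N) hq3 (fun m => ∀ t : ℕ, (t : ℝ) ≤ Real.log N ^ W → 1 ≤ c + κ * m + t →
        c + κ * m + t ≤ N → ∀ l, Good ε K N (A l) (c + κ * m + t)) (1 / Real.log N ^ U) (by
      refine le_trans (le_of_eq ?_) h4
      apply sum_congr rfl
      intro v _
      by_cases h6 : ∀ t : ℕ, (t : ℝ) ≤ Real.log N ^ W → 1 ≤ c + κ * v + t →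
        c + κ * v + t ≤ N → ∀ l, Good ε K N (A l) (c + κ * v + t)
      · rw [if_pos h6, if_neg (not_not.2 h6)]
      · rw [if_neg h6, if_pos h6])
  refine h5.trans (le_of_eq ?_)
  ring

end Pool.Agent.Run7.h794.WN
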