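import Pool.Agent.Run7.h794.WN.Short
import Pool.Agent.TH894.LH6
import Pool.Agent.N469.PT.Ws

set_option autoImplicit false

/-! One length: primes to the right of the points of the translates of a set by a random integer. -/

namespace Pool.Agent.Run7.h794.WN

open Finset Filter
open Pool.Agent.H373R2.T7 (lamI lamzI lamz)
open Pool.Agent.W301.SS (om om_nonneg om_le sum_om sum_Lam cs pn ev_L ev_log)
open Pool.Agent.TH646.TT (av)
open Pool.Agent.N469.PT (OneLaw)

/-- the number of the `a ∈ A` with `a < n ≤ a + y`, divided by `y` -/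
noncomputable def GA (A : Finset ℕ) (y n : ℕ) : ℝ := ((A.filter fun a => a < n ∧ n ≤ a + y).card : ℝ) / y

lemma GA_nonneg (A : Finset ℕ) (y n : ℕ) : 0 ≤ GA A y n := by
  unfold GA
  positivity

lemma GA_le (A : Finset ℕ) (y n : ℕ) (hy : 1 ≤ y) : GA A y n ≤ 1 := by
  unfold GA
  have hy0 : (0 : ℝ) < y := by exact_mod_cast hy
  rw [div_le_one hy0]
  have h1 : A.filter (fun a => a < n ∧ n ≤ a + y) ⊆ Ico (n - y) n := by
    intro a ha
    rw [mem_filter] at ha
    rw [mem_Ico]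
    omega
  have h2 := card_le_card h1
  rw [Nat.card_Ico] at h2
  exact_mod_cast (by omega : (A.filter fun a => a < n ∧ n ≤ a + y).card ≤ y)

lemma GA_sum (A : Finset ℕ) (y X : ℕ) (hy : 1 ≤ y) (hA : ∀ a ∈ A, a + y ≤ X) (f : ℕ → ℝ) :
    ∑ n ∈ Icc 1 X, GA A y n * f n = (∑ a ∈ A, ∑ h ∈ Ioc 0 y, f (a + h)) / y := by
  have hy0 : (y : ℝ) ≠ 0 := by
    have : (0 : ℝ) < y := by exact_mod_cast hy
    exact this.ne'
  have h1 : ∀ n, GA A y n * f n = (∑ a ∈ A, if a < n ∧ n ≤ a + y then f n else 0) / y := by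
    intro n
    unfold GA
    rw [card_filter]
    push_cast
    rw [div_mul_eq_mul_div, sum_mul]
    congr 1
    apply sum_congr rfl
    intro a _
    split_ifs <;> simp
  rw [sum_congr rfl (fun n _ => h1 n), ← sum_div, sum_comm]
  congr 1
  apply sum_congr rfl
  intro a ha
  have haX := hA a ha
  rw [← sum_filter]
  have e1 : (Icc 1 X).filter (fun n => a < n ∧ n ≤ a + y) = (Ioc 0 y).map (addLeftEmbedding a) := by
    rw [map_add_left_Ioc, add_zero]
    ext n
    simp only [mem_filter, mem_Icc, mem_Ioc]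
    omega
  rw [e1, sum_map]
  rfl

/-- one length -/
theorem one_scale {L : ℕ → Finset ℕ → (ℕ → ℝ) → Prop} (κ Bc C V : ℕ) (η : ℝ) (hη : 0 < η) (hη1 : η ≤ 1)
    (hL : OneLaw L κ Bc (V + C + 1)) :
    ∃ K : ℕ, ∀ᶠ N : ℕ in atTop, ∀ (Ω : Finset ℕ) (p : ℕ → ℝ), L (4 * N) Ω p → ∀ c : ℕ, c ≤ Bc * (4 * N) →
      ∀ A : Finset ℕ, A ⊆ Icc 1 N → (N : ℝ) ≤ A.card * Real.log N ^ C → ∀ y : ℕ, Real.log N ^ K ≤ y → y ≤ 2 * N →
      ∑ v ∈ Ω, (if 1 ≤ c + κ * v ∧ c + κ * v ≤ N ∧
        ¬ |cs A (c + κ * v) y * Real.log N - A.card * y| ≤ η * (A.card * y) then p v else 0) ≤ 1 / Real.log N ^ V := by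
  classical
  obtain ⟨A0, B0, hE⟩ := hL
  obtain ⟨N1, hN1⟩ := hE (B0 + 2)
  obtain ⟨Ks, z0, hKs, hz0, hshort⟩ := lam_short (η / 64) (by positivity)
  refine ⟨(B0 + 2) * Ks * 2, ?_⟩
  filter_upwards [Pool.Agent.TH894.LH.det_one C η hη hη1, ev_L (256 / η + z0 + 4),
    ev_log (C + 1) (1024 / η) (1 / 2) (by norm_num), eventually_ge_atTop (N1 + 16)] with N hdet hlog hpow hN16
    Ω p hLp c hc A hA hAN y hyK hy2
  have hNr : (16 : ℝ) ≤ N := by exact_mod_cast (by omega : 16 ≤ N)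
  have hN0 : (0 : ℝ) < N := by linarith
  obtain ⟨ℓ, hℓ⟩ : ∃ ℓ, ℓ = Real.log (N : ℝ) := ⟨_, rfl⟩
  rw [← hℓ] at hlog hpow hAN hyK
  have hd : 0 < 256 / η := by positivity
  have hz0r : (0 : ℝ) ≤ z0 := Nat.cast_nonneg _
  have hℓ4 : 4 ≤ ℓ := by linarith
  have hℓ0 : 0 < ℓ := by linarith
  have hy0r : (1 : ℝ) ≤ y := (one_le_pow₀ (by linarith)).trans hyK
  have hy1 : 1 ≤ y := by exact_mod_cast hy0r
  have hy0 : (0 : ℝ) < y := by linarith
  -- the scale
  obtain ⟨X, hX⟩ : ∃ X : ℕ, X = 4 * N := ⟨_, rfl⟩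
  have hXr : (X : ℝ) = 4 * N := by rw [hX]; push_cast; ring
  obtain ⟨ℓX, hℓX⟩ : ∃ ℓX, ℓX = Real.log (X : ℝ) := ⟨_, rfl⟩
  have hX0 : (0 : ℝ) < X := by rw [hXr]; linarith
  have hℓX1 : ℓ ≤ ℓX := by
    rw [hℓ, hℓX]
    apply Real.log_le_log hN0
    rw [hXr]
    linarith
  have hℓX2 : ℓX ≤ 2 * ℓ := by
    have h1 : (X : ℝ) ≤ (N : ℝ) ^ 2 := by rw [hXr]; nlinarith
    have h2 := Real.log_le_log hX0 h1
    rw [Real.log_pow] at h2
    push_cast at h2
    rw [hℓX, hℓ]
    exact h2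
  have hℓX0 : 0 < ℓX := by linarith
  have hℓX4 : 4 ≤ ℓX := by linarith
  -- the sieve level
  obtain ⟨z, hz⟩ : ∃ z : ℕ, z = ⌈ℓX ^ (B0 + 1)⌉₊ := ⟨_, rfl⟩
  have hz1 : ℓX ^ (B0 + 1) ≤ z := by rw [hz]; exact Nat.le_ceil _
  have hz2 : (z : ℝ) ≤ ℓX ^ (B0 + 2) := by
    have h1 := Nat.ceil_lt_add_one (show 0 ≤ ℓX ^ (B0 + 1) by positivity)
    rw [← hz] at h1
    have h2 : 1 ≤ ℓX ^ (B0 + 1) := one_le_pow₀ (by linarith)
    have h3 : ℓX ^ (B0 + 2) = ℓX ^ (B0 + 1) * ℓX := pow_succ _ _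
    rw [h3]
    nlinarith
  have hz3 : ℓX ^ B0 ≤ z := (pow_le_pow_right₀ (by linarith) (by omega)).trans hz1
  have hz4 : z0 ≤ z := by
    have h1 : (z0 : ℝ) ≤ z := by
      calc (z0 : ℝ) ≤ ℓX := by linarith
        _ = ℓX ^ 1 := (pow_one _).symm
        _ ≤ ℓX ^ (B0 + 1) := pow_le_pow_right₀ (by linarith) (by omega)
        _ ≤ z := hz1
    exact_mod_cast h1
  have hzK : z ^ Ks ≤ y := by
    have h1 : ((z ^ Ks : ℕ) : ℝ) ≤ y := by
      push_cast
      calc (z : ℝ) ^ Ks ≤ (ℓX ^ (B0 + 2)) ^ Ks := pow_le_pow_left₀ (Nat.cast_nonneg _) hz2 _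
        _ = ℓX ^ ((B0 + 2) * Ks) := by rw [← pow_mul]
        _ ≤ (ℓ ^ 2) ^ ((B0 + 2) * Ks) := by
            apply pow_le_pow_left₀ hℓX0.le
            nlinarith
        _ = ℓ ^ ((B0 + 2) * Ks * 2) := by rw [← pow_mul]; ring_nf
        _ ≤ y := hyK
    exact_mod_cast h1
  -- the law
  have hlaw := hN1 X (by omega) Ω p (by rw [hX]; exact hLp) c (by rw [hX]; exact hc)
  rw [← hℓX] at hlaw
  obtain ⟨hp0, -, -, -, hlaw⟩ := hlaw
  have hlaw := hlaw z hz3 hz2 1 one_pos (GA A y) (fun n _ => by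
    rw [abs_of_nonneg (GA_nonneg A y n)]
    exact GA_le A y n hy1)
  rw [one_mul] at hlaw
  obtain ⟨T, hT⟩ : ∃ T : ℕ → ℝ, T = fun v => ∑ n ∈ Icc 1 X, GA A y n *
    (lamI ((n : ℤ) + ((c + κ * v : ℕ) : ℤ)) - lamzI z ((n : ℤ) + ((c + κ * v : ℕ) : ℤ))) := ⟨_, rfl⟩
  have hlaw' : ∑ v ∈ Ω, p v * |T v| ≤ X / ℓX ^ (V + C + 1) := by
    rw [hT]
    exact hlaw
  have hpℓ : 0 < ℓ ^ C := by positivity
  have hAc0 : (0 : ℝ) < A.card := by
    by_contra hcon
    have h7 : (A.card : ℝ) = 0 := le_antisymm (not_lt.1 hcon) (Nat.cast_nonneg _)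
    rw [h7, zero_mul] at hAN
    linarith
  have hAX : ∀ a ∈ A, a + y ≤ X := by
    intro a ha
    have := (mem_Icc.1 (hA ha)).2
    omega
  -- the good values
  have hgood : ∀ v ∈ Ω, 1 ≤ c + κ * v → c + κ * v ≤ N → |T v| ≤ (η / 64) * A.card →
      |cs A (c + κ * v) y * Real.log N - A.card * y| ≤ η * (A.card * y) := by
    intro v _ hv1 hv2 hTv
    obtain ⟨b, hb⟩ : ∃ b, b = c + κ * v := ⟨_, rfl⟩
    have hTb : T v = ∑ n ∈ Icc 1 X, GA A y n * (lamI ((n : ℤ) + (b : ℤ)) - lamzI z ((n : ℤ) + (b : ℤ))) := by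
      rw [hT, hb]
    rw [← hb] at hv1 hv2 ⊢
    apply hdet A hA (by rw [← hℓ]; exact hAN) b hv2 y hy1 hy2
    -- the three sums
    have hI : ∀ n ∈ Icc 1 X, lamI ((n : ℤ) + (b : ℤ)) = ArithmeticFunction.vonMangoldt (b + n) := by
      intro n hn
      have hn1 := (mem_Icc.1 hn).1
      unfold lamI
      have e : (n : ℤ) + (b : ℤ) = ((b + n : ℕ) : ℤ) := by push_cast; ring
      rw [e, if_pos (by omega), Int.toNat_natCast]
    have hzI : ∀ n ∈ Icc 1 X, lamzI z ((n : ℤ) + (b : ℤ)) = lamz z (b + n) := by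
      intro n hn
      have hn1 := (mem_Icc.1 hn).1
      unfold lamzI
      have e : (n : ℤ) + (b : ℤ) = ((b + n : ℕ) : ℤ) := by push_cast; ring
      rw [e, if_pos (by omega), Int.toNat_natCast]
    have hT2 : T v = ∑ n ∈ Icc 1 X, GA A y n * ArithmeticFunction.vonMangoldt (b + n) -
        ∑ n ∈ Icc 1 X, GA A y n * lamz z (b + n) := by
      rw [hTb, ← sum_sub_distrib]
      apply sum_congr rfl
      intro n hn
      rw [hI n hn, hzI n hn]
      ring
    -- the model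
    have hS2 : |∑ n ∈ Icc 1 X, GA A y n * lamz z (b + n) - A.card| ≤ (η / 64) * A.card := by
      rw [GA_sum A y X hy1 hAX (fun n => lamz z (b + n))]
      have e : (∑ a ∈ A, ∑ h ∈ Ioc 0 y, lamz z (b + (a + h))) / (y : ℝ) - A.card =
          (∑ a ∈ A, (∑ h ∈ Ioc 0 y, lamz z (b + a + h) - y)) / y := by
        rw [sum_sub_distrib, sum_const, nsmul_eq_mul, sub_div, mul_div_assoc, div_self hy0.ne', mul_one]
        simp only [add_assoc]
      rw [e, abs_div, abs_of_pos hy0, div_le_iff₀ hy0]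
      refine (abs_sum_le_sum_abs _ _).trans ?_
      calc ∑ a ∈ A, |∑ h ∈ Ioc 0 y, lamz z (b + a + h) - y| ≤ ∑ _a ∈ A, (η / 64) * y :=
            sum_le_sum fun a _ => hshort z hz4 y hzK (b + a)
        _ = _ := by
            rw [sum_const, nsmul_eq_mul]
            ring
    -- the prime powers
    have hS3 : |∑ n ∈ Icc 1 X, GA A y n * ArithmeticFunction.vonMangoldt (b + n) -
        ∑ n ∈ Icc 1 X, GA A y n * om (b + n)| ≤ (η / 64) * A.card := by
      rw [← sum_sub_distrib]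
      have hpos : ∀ n, 0 ≤ ArithmeticFunction.vonMangoldt n - om n := fun n => sub_nonneg.2 (om_le n)
      have e1 : ∀ n ∈ Icc 1 X, GA A y n * ArithmeticFunction.vonMangoldt (b + n) - GA A y n * om (b + n) =
          GA A y n * (ArithmeticFunction.vonMangoldt (b + n) - om (b + n)) := fun n _ => by ring
      rw [sum_congr rfl e1, abs_of_nonneg (sum_nonneg fun n _ => mul_nonneg (GA_nonneg A y n) (hpos _))]
      have h1 : ∑ n ∈ Icc 1 X, GA A y n * (ArithmeticFunction.vonMangoldt (b + n) - om (b + n)) ≤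
          ∑ m ∈ Icc 1 (b + X), (ArithmeticFunction.vonMangoldt m - om m) := by
        calc ∑ n ∈ Icc 1 X, GA A y n * (ArithmeticFunction.vonMangoldt (b + n) - om (b + n))
            ≤ ∑ n ∈ Icc 1 X, (ArithmeticFunction.vonMangoldt (b + n) - om (b + n)) := by
              apply sum_le_sum
              intro n _
              calc _ ≤ 1 * (ArithmeticFunction.vonMangoldt (b + n) - om (b + n)) :=
                    mul_le_mul_of_nonneg_right (GA_le A y n hy1) (hpos _)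
                _ = _ := one_mul _
          _ = ∑ m ∈ (Icc 1 X).map (addLeftEmbedding b), (ArithmeticFunction.vonMangoldt m - om m) := by
              rw [sum_map]
              rfl
          _ ≤ _ := by
              apply sum_le_sum_of_subset_of_nonneg
              · intro m hm
                rw [Finset.mem_map] at hm
                obtain ⟨n, hn, rfl⟩ := hm
                rw [mem_Icc] at hn ⊢
                simp only [addLeftEmbedding_apply]
                omega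
              · intro m _ _
                exact hpos m
      refine h1.trans ?_
      rw [sum_sub_distrib, sum_om, sum_Lam]
      have h2 := Chebyshev.psi_sub_theta_le (x := ((b + X : ℕ) : ℝ)) (by exact_mod_cast (by omega : 1 ≤ b + X))
      refine h2.trans ?_
      have h3 : ((b + X : ℕ) : ℝ) ≤ 16 * N := by exact_mod_cast (by omega : b + X ≤ 16 * N)
      have h4 : √((b + X : ℕ) : ℝ) ≤ 4 * (N : ℝ) ^ (1 / 2 : ℝ) := by
        rw [Real.sqrt_le_left (by positivity), mul_pow, ← Real.rpow_natCast ((N : ℝ) ^ (1 / 2 : ℝ)), ← Real.rpow_mul hN0.le]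
        norm_num
        push_cast at h3
        linarith
      have h5 : Real.log ((b + X : ℕ) : ℝ) ≤ 2 * ℓ := by
        have h6 : ((b + X : ℕ) : ℝ) ≤ (N : ℝ) ^ 2 := by nlinarith
        have h7 := Real.log_le_log (by exact_mod_cast (by omega : 0 < b + X)) h6
        rw [Real.log_pow] at h7
        push_cast at h7 ⊢
        rw [hℓ]
        exact h7
      have h6 : 0 ≤ Real.log ((b + X : ℕ) : ℝ) := Real.log_natCast_nonneg _
      calc 2 * √((b + X : ℕ) : ℝ) * Real.log ((b + X : ℕ) : ℝ) ≤ 2 * (4 * (N : ℝ) ^ (1 / 2 : ℝ)) * (2 * ℓ) := by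
            gcongr
        _ = (η / 64) * (((1024 / η) * ℓ ^ (C + 1)) * (N : ℝ) ^ (1 / 2 : ℝ) / ℓ ^ C) := by
            rw [pow_succ]
            field_simp
            ring
        _ ≤ (η / 64) * ((N : ℝ) ^ (1 / 2 : ℝ) * (N : ℝ) ^ (1 / 2 : ℝ) / ℓ ^ C) := by gcongr
        _ = (η / 64) * (N / ℓ ^ C) := by
            rw [← Real.rpow_add hN0]
            norm_num
        _ ≤ (η / 64) * A.card := by
            apply mul_le_mul_of_nonneg_left _ (by positivity)
            rw [div_le_iff₀ hpℓ]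
            exact hAN
    have hav : ∑ a ∈ A, av y (a + b) = ∑ n ∈ Icc 1 X, GA A y n * om (b + n) := by
      rw [GA_sum A y X hy1 hAX (fun n => om (b + n)), sum_div]
      apply sum_congr rfl
      intro a _
      unfold av
      congr 1
      apply sum_congr rfl
      intro h _
      congr 1
      ring
    rw [hav]
    have h1 := abs_le.1 hTv
    have h2 := abs_le.1 hS2
    have h3 := abs_le.1 hS3
    rw [hT2] at h1
    rw [abs_le]
    have h4 : 0 < η * A.card := by positivity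
    constructor <;> linarith [h1.1, h1.2, h2.1, h2.2, h3.1, h3.2]
  -- Markov
  have hM : ∀ v ∈ Ω, (if 1 ≤ c + κ * v ∧ c + κ * v ≤ N ∧
        ¬ |cs A (c + κ * v) y * Real.log N - A.card * y| ≤ η * (A.card * y) then p v else 0) ≤
      (64 / (η * A.card)) * (p v * |T v|) := by
    intro v hv
    have hpv := hp0 v hv
    split_ifs with h
    · obtain ⟨h1, h2, h3⟩ := h
      have h4 : (η / 64) * A.card < |T v| := by
        by_contra hcon
        exact h3 (hgood v hv h1 h2 (not_lt.1 hcon))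
      calc p v = (64 / (η * A.card)) * (p v * ((η / 64) * A.card)) := by field_simp
        _ ≤ _ := by gcongr
    · positivity
  refine (sum_le_sum hM).trans ?_
  rw [← mul_sum, ← hℓ]
  calc (64 / (η * A.card)) * ∑ v ∈ Ω, p v * |T v| ≤ (64 / (η * A.card)) * (X / ℓX ^ (V + C + 1)) :=
        mul_le_mul_of_nonneg_left hlaw' (by positivity)
    _ ≤ (64 / (η * A.card)) * (X / ℓ ^ (V + C + 1)) := by gcongr
    _ = (256 / η) * (N / (A.card * ℓ ^ C)) * (1 / ℓ) * (1 / ℓ ^ V) := by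
        rw [hXr, pow_add, pow_add, pow_one]
        field_simp
        ring
    _ ≤ (256 / η) * 1 * (1 / ℓ) * (1 / ℓ ^ V) := by
        gcongr
        rw [div_le_one (by positivity)]
        exact hAN
    _ = ((256 / η) / ℓ) * (1 / ℓ ^ V) := by ring
    _ ≤ 1 * (1 / ℓ ^ V) := by
        apply mul_le_mul_of_nonneg_right _ (by positivity)
        rw [div_le_one hℓ0]
        linarith
    _ = 1 / ℓ ^ V := one_mul _

end Pool.Agent.Run7.h794.WN
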