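import Pool.Agent.H373R2.T7.Fund
import Pool.Agent.H373R2.T7.BilLam

set_option autoImplicit false

/-! The sieve model in short intervals. -/

namespace Pool.Agent.Run7.h794.WN

open Finset Filter
open Pool.Agent.H373R2.T7

/-- the class which makes `m + n` divisible by `p` -/
lemma nuB_shift (m p : ℕ) (hp : p.Prime) : nuB (fun p n => p ∣ m + n) p = 1 := by
  classical
  unfold nuB
  rw [card_eq_one]
  have hp0 := hp.pos
  refine ⟨(p - m % p) % p, ?_⟩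
  have hr0 : p ∣ m + (p - m % p) % p := by
    rw [Nat.dvd_iff_mod_eq_zero, Nat.add_mod, Nat.mod_mod, ← Nat.add_mod, Nat.add_mod]
    have h1 : m % p < p := Nat.mod_lt _ hp0
    rcases Nat.eq_zero_or_pos (m % p) with h2 | h2
    · rw [h2]
      simp
    · have h3 : (p - m % p) % p = p - m % p := Nat.mod_eq_of_lt (by omega)
      rw [h3]
      have h4 : m % p + (p - m % p) = p := by omega
      rw [h4]
      exact Nat.mod_self p
  ext r
  simp only [mem_filter, mem_range, mem_singleton]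
  constructor
  · rintro ⟨h1, h2⟩
    have h3 : m + r ≡ m + (p - m % p) % p [MOD p] :=
      (Nat.modEq_zero_iff_dvd.2 h2).trans (Nat.modEq_zero_iff_dvd.2 hr0).symm
    exact Nat.ModEq.eq_of_lt_of_lt (Nat.ModEq.add_left_cancel' m h3) h1 (Nat.mod_lt _ hp0)
  · rintro rfl
    exact ⟨Nat.mod_lt _ hp0, hr0⟩

lemma perB_shift (m : ℕ) : PerB (fun p n => p ∣ m + n) 1 := by
  refine ⟨fun p n => ?_, fun p hp => (nuB_shift m p hp).le⟩
  have h : m + n ≡ m + n % p [MOD p] := Nat.ModEq.add_left _ (Nat.mod_modEq n p).symm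
  constructor
  · intro h1
    exact (h.dvd_iff dvd_rfl).1 h1
  · intro h1
    exact (h.dvd_iff dvd_rfl).2 h1

/-- the model in short intervals -/
theorem lam_short (ε : ℝ) (hε : 0 < ε) : ∃ K z0 : ℕ, 1 ≤ K ∧ 1 ≤ z0 ∧ ∀ z : ℕ, z0 ≤ z → ∀ X : ℕ, z ^ K ≤ X → ∀ m : ℕ,
    |∑ h ∈ Ioc 0 X, lamz z (m + h) - X| ≤ ε * X := by
  classical
  obtain ⟨K, x0, hK, hF⟩ := sys_fund 1 le_rfl (ε / 2) (by linarith)
  obtain ⟨z1, hz1⟩ := exists_nat_ge (2 / ε)
  refine ⟨K + 2, x0 + z1 + 1, by omega, by omega, fun z hz X hX m => ?_⟩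
  have hz1' : 1 ≤ z := by omega
  have hz0 : (0 : ℝ) < z := by exact_mod_cast hz1'
  have hzr : (1 : ℝ) ≤ z := by exact_mod_cast hz1'
  have hV := Vz_pos z
  have hVi := Vz_inv_le z hz1'
  have h1 := hF (z ^ K) z (by omega) le_rfl (fun p n => p ∣ m + n) (perB_shift m) X
  have h2 : ∏ p ∈ pz z, (1 - (nuB (fun p n => p ∣ m + n) p : ℝ) / p) = Vz z := by
    unfold Vz
    apply prod_congr rfl
    intro p hp
    rw [nuB_shift m p (mem_pz.1 hp).2, Nat.cast_one]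
  rw [h2] at h1
  obtain ⟨c, hc⟩ : ∃ c : ℝ, c = (((Icc 1 X).filter (fun n : ℕ => ∀ p ∈ pz z, ¬ p ∣ m + n)).card : ℝ) := ⟨_, rfl⟩
  have h3 : ∑ h ∈ Ioc 0 X, lamz z (m + h) = (Vz z)⁻¹ * c := by
    unfold lamz
    have e : Ioc 0 X = Icc 1 X := by
      ext i; simp only [mem_Ioc, mem_Icc]; omega
    rw [e, ← sum_filter, sum_const, nsmul_eq_mul, mul_comm, hc]
  have h4 : |c - X * Vz z| ≤ ε / 2 * (X * Vz z) + √((z ^ K : ℕ) : ℝ) := by
    rw [hc]
    convert h1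
  rw [h3]
  have h5 : (Vz z)⁻¹ * c - X = (Vz z)⁻¹ * (c - X * Vz z) := by
    field_simp
  rw [h5, abs_mul, abs_of_pos (inv_pos.2 hV)]
  have h6 : √((z ^ K : ℕ) : ℝ) ≤ z ^ K := by
    rw [Real.sqrt_le_left (by positivity)]
    push_cast
    have : (1 : ℝ) ≤ (z : ℝ) ^ K := one_le_pow₀ hzr
    nlinarith
  have h7 : (z : ℝ) * z ^ K ≤ ε / 2 * X := by
    have hXr : (z : ℝ) ^ (K + 2) ≤ X := by exact_mod_cast hX
    have h8 : 2 / ε ≤ z := hz1.trans (by exact_mod_cast (by omega : z1 ≤ z))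
    rw [div_le_iff₀ hε] at h8
    have h9 : (z : ℝ) * z ^ K * 2 ≤ z * z ^ K * (z * ε) := mul_le_mul_of_nonneg_left h8 (by positivity)
    have h10 : (z : ℝ) ^ (K + 2) * ε ≤ X * ε := mul_le_mul_of_nonneg_right hXr hε.le
    have h11 : (z : ℝ) * z ^ K * (z * ε) = z ^ (K + 2) * ε := by ring
    linarith
  calc (Vz z)⁻¹ * |c - X * Vz z| ≤ (Vz z)⁻¹ * (ε / 2 * (X * Vz z) + √((z ^ K : ℕ) : ℝ)) :=
        mul_le_mul_of_nonneg_left h4 (inv_pos.2 hV).le
    _ = ε / 2 * X + (Vz z)⁻¹ * √((z ^ K : ℕ) : ℝ) := by field_simp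
    _ ≤ ε / 2 * X + z * z ^ K := by
        apply add_le_add le_rfl
        exact mul_le_mul hVi h6 (Real.sqrt_nonneg _) hz0.le
    _ ≤ ε * X := by linarith

end Pool.Agent.Run7.h794.WN
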